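import Pool.Agent.Lib.MP_305fdd_al.CZ.D.Stm

/-!
# MP_305fdd_al (`C_m * Z`), section T: trees with elliptic elements. Statements with proofs [CZT ..]

Every `def S_xx : Prop` is one independent piece; its docstring contains the complete proof.
The other statements, the statements `CZD.S_..` of `CZ/D/Stm.lean` and `F2D.S_..` of `F2/D/StmT`, `F2/D/StmB` (the latter are all proved)
may be taken as hypotheses.
-/

set_option autoImplicit false

namespace Pool.Agent.CZT

open Pool.Agent.PSL2Z (TreeAct Gw)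
open Pool.Agent.PSL2Z.BT (Vert mkV tree)
open Pool.Agent.CC (Fund)
open Pool.Agent.CZ (Core)
open Pool.Agent.CZD (GD OntoW WW)
open Pool.Agent.F2 (PC)
open Pool.Agent.F2Ch (IsV Gt)
open Pool.Agent.F2D (Acts Irr Disc EdgeElt)
open scoped WithZero

/-- THE ALGEBRAIC SITUATION: `(δ, ν)` is the class in `C_m × ℤ`, `c` is central of order two -/
structure Cls (m : ℕ) (G : Type) [Group G] (c : G) (δ : G →* Multiplicative (ZMod m))
    (ν : G →* Multiplicative ℤ) : Prop where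
  two_le : 2 ≤ m
  gd : GD m G δ ν
  c_comm : ∀ g, c * g = g * c
  c_sq : c * c = 1
  c_δ : δ c = 1
  ker : ∀ g, δ g = 1 → ν g = 1 → g ∈ commutator G ∨ c * g ∈ commutator G

/-! ## Trees -/

/-- [CZT sub] (about 130 lines) Uses F2D.S_t1, F2D.S_t2. BARYCENTRIC SUBDIVISION with the stabilisers.
Proof. `V' = {S : Set V // (∃ v, S = {v}) ∨ ∃ u v, X.Adj u v ∧ S = {u, v}}`, `X'.Adj S T` iff `S ⊂ T` or `T ⊂ S` (so one is a singleton `{u}` and
the other an edge `{u, v}`), `g • S = (g • ·) '' S`, `ty S` = `S` is a singleton (decide).  Connected: `{u}`, `{u, v}`, `{v}` for `X.Adj u v`; `X` is connected.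
Tree by t1.  Cut for `({u}, {u, v})`, `X.Adj u v`: let `S` be a cut of `X` for `(u, v)` (t2) and take `{T | ∃ x ∈ T, x ∈ S}`: if `T1, T2` are adjacent, `T1` does
not meet `S` and `T2` meets `S` then `T1 ⊂ T2`, `T1 = {a}`, `T2 = {a, b}`, `a ∉ S`, `b ∈ S`, so `a = u`, `b = v`.  Cut for `({u, v}, {u})`: the complement of this set (with the
same argument).  The stabiliser of `{v}` is the stabiliser of `v`; `g • {u, v} = {u, v}` iff `g` fixes both or exchanges them (`u ≠ v`). An edge of `X'` is `{u}, {u, v}` (in one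
of the two orders): if `g` fixes `{u}` and `{u, v}` then `g • u = u` and so `g • v = v`. -/
def S_sub : Prop :=
  ∀ (G V : Type) [Group G] [MulAction G V] (X : SimpleGraph V), X.IsTree → Acts G X →
    ∃ (V' : Type) (_ : MulAction G V') (X' : SimpleGraph V') (ty : V' → Bool),
      TreeAct G V' X' ty ∧
      (∀ a : V', (∃ v : V, ∀ g : G, g • a = a ↔ g • v = v) ∨
        ∃ u v : V, X.Adj u v ∧
          ∀ g : G, g • a = a ↔ (g • u = u ∧ g • v = v) ∨ (g • u = v ∧ g • v = u)) ∧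
      (∀ v : V, ∃ a : V', ∀ g : G, g • a = a ↔ g • v = v) ∧
      ∀ a b : V', X'.Adj a b → ∃ u v : V, X.Adj u v ∧
        ∀ g : G, (g • a = a ∧ g • b = b) ↔ (g • u = u ∧ g • v = v)

/-- [CZT fp] (about 90 lines) Uses F2D.S_fx, F2D.S_ma. An element with integral trace fixes a vertex of the Bruhat-Tits tree.
Proof. Consider the triples `(k, h, N)`, `k : Gw w`, `h : ℤ`, `N : ℕ`, with `Bd w (k⁻¹ * A * k) h N`.  They exist (`k = 1`, `h = 0`, `N` large); let `N` be minimal.  If `N = 0`: `k⁻¹ A k` fixes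
`mkV w h 0` (fx), so `A` fixes `k • mkV w h 0`.  Let `N ≥ 1`.  By ma (replace `k` by `k * r`) we may assume that `B = k⁻¹ * A * k` has `w B10 < exp (N - h)`, `w B11 < exp N`.
`w (B00 + B11) ≤ 1 < exp N` (the trace of a conjugate), so `w B00, w B11 ≤ exp (N - 1)`.  If `w B01 < exp (N + h)` then `Bd w B h (N - 1)`: contradiction.  So
`w B01 = exp (N + h)`, `B01 B10 = B00 B11 - 1` has value `≤ exp (2N - 2)`, so `w B10 ≤ exp (N - 2 - h)` and `Bd w B (h + 1) (N - 1)`: contradiction.  (`F2D.A2_trace`, `F2D.A2_det` in `F2/D/p_A2`.) -/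
def S_fp : Prop :=
  ∀ (E : Type) [Field E] (w : Valuation E ℤᵐ⁰), Function.Surjective w → ∀ A : Gw w,
    A.val.val.det = 1 → w A.val.val.trace ≤ 1 → ∃ M : Vert w, A • M = M

/-- [CZT tt] (about 240 lines) Uses fp, sub and F2D: co, mi, le, se, mo. THE TREE OF A DIVISORIAL VALUATION.  (Stronger than `CZD.S_TT`: if its proof exists already, adapt it.)
Proof. Copy the proof of `F2D.p_A2` (file `F2/D/p_A2.lean`) up to the construction of `W, Z, q` (the collapse of the edges which are not good) and `hval`: an element fixing a vertex of `Z`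
has `0 ≤ v (T l)`.  (a) If `0 ≤ v (T l)` then `w (T l) ≤ 1`, so `ρ l` fixes a vertex `M` (fp) and `l` fixes `q M`.  (b) If `T (c h) = - T h` for all `h` then `trace ((ρ c + 1) * ρ h) = T (c h) + T h = 0` for all `h`, so
`ρ c = -1` (`Model.span`), which fixes every `M : Vert w` (`M.1` is stable under `v ↦ -v`: `mem_smul`, `PSL2Z.BT.mem_S`), so `c` fixes `q M`.  (c) If `Z.Adj a b` then as in `p_A2` (last part) there is `g` (depending
only on the edge: it comes from `Good u u'`) such that for every `l` fixing `a` and `b` there is `ψ` with `EdgeElt v T l g ψ`.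
(d) Apply sub to `Z`: a tree with types.  Stabilisers of vertices: stabilisers of vertices of `Z` (and each of these occurs), or `l` exchanges `u, v` or fixes both; if it exchanges them then `l * l` fixes
`u`, so `0 ≤ v (T (l * l))`, `T (l * l) = T l ^ 2 - 2` (`PC.rel l l`, `PC.one`), and `v (T l) < 0` would give `v (T l ^ 2 - 2) = 2 v (T l) < 0` (`0 ≤ v 2` or `2 = 0`).  The edge stabilisers are those of `Z`.  `c` fixes all vertices of `Z`, so it fixes all
vertices of the subdivision. -/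
def S_tt : Prop :=
  ∀ (G K Γ : Type) [Group G] [Field K] [AddCommGroup Γ] [LinearOrder Γ] [IsOrderedAddMonoid Γ]
    (T : G → K) (v : K → Γ), PC T → Irr T → IsV v → Disc v → (∃ g0, v (T g0) < 0) →
    ∃ (W : Type) (_ : MulAction G W) (Z : SimpleGraph W) (ty : W → Bool), TreeAct G W Z ty ∧
      (∀ l : G, (∃ a : W, l • a = a) ↔ 0 ≤ v (T l)) ∧
      (∀ a b, Z.Adj a b → ∃ g : G, ∀ l : G, l • a = a → l • b = b → ∃ ψ : K, EdgeElt v T l g ψ) ∧
      ∀ c : G, (∀ h, T (c * h) = - T h) → ∀ a : W, c • a = a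

/-! ## Groups on trees: class trivial edge stabilisers -/

/-- [CZT cls] (about 40 lines) Uses CZD.S_gd.
Proof. `δ` from gd.  `c_δ`: `χ c = -1`.  ker: `(χ g) ^ 2 = 1` implies `χ g = 1` or `χ g = -1`; in the first case `C.ker`; in the second case `χ (c * g) = 1`, `ν (c * g) = 1` (`χ_c`, `ν_c`): `C.ker`. -/
def S_cls : Prop :=
  ∀ (p m : ℕ) [Fact p.Prime] (k K G : Type) [Field k] [CharP k p] [IsAlgClosed k]
    [Field K] [Algebra k K] [Group G] (C : Core p m k K G),
    ∃ δ : G →* Multiplicative (ZMod m), Cls m G C.c δ C.ν ∧ ∀ g, δ g = 1 ↔ C.χ g ^ 2 = 1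

/-- [CZT split] (about 110 lines) Edge stabilisers with trivial classes.
Proof. `G` is generated by the `G_v`, `v ∈ Y` (`CC.Fund.iSup_stab`) and `(δ, ν)` is surjective: `H1 ⊔ H' = ⊤`.  `CC.exists_hom_ext` with the commutative group `W = H × H`, `H = C_m × ℤ`, `φ v1 = (cl, 1)`, `φ v = (1, cl)` for `v ≠ v1`, `cl = (δ, ν)`
(on edges `cl = 1`): `f`.  `f` is trivial on the commutator subgroup and `f c = 1` (`c` fixes `v1`, `cl c = 1`: `δ c = 1`, `ν c = 1` as `c * c = 1`), so `cl g = 1` implies `f g = 1` (`Cls.ker`), so `cl g = cl g'` implies `f g = f g'`.  For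
`g ∈ G_{v1}`: `f g = (cl g, 1)`; for `g'` in the subgroup generated by the `G_v`, `v ≠ v1`: `f g' = (1, cl g')`.  So if `cl g = cl g'` then `cl g = 1`. -/
def S_split : Prop :=
  ∀ (m : ℕ) (G V : Type) [Group G] [MulAction G V] (c : G) (δ : G →* Multiplicative (ZMod m))
    (ν : G →* Multiplicative ℤ), Cls m G c δ ν → ∀ (X : SimpleGraph V) (ty : V → Bool)
    (Y : Finset V), TreeAct G V X ty → Fund (Λ := G) X Y → (∀ v : V, c • v = v) →
    (∀ u v, X.Adj u v → ∀ l : G, l • u = u → l • v = v → δ l = 1 ∧ ν l = 1) → ∀ v1 ∈ Y,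
    (MulAction.stabilizer G v1).map (δ.prod ν) ⊔
        (⨆ v ∈ Y, ⨆ _ : v ≠ v1, (MulAction.stabilizer G v).map (δ.prod ν)) = ⊤ ∧
      (MulAction.stabilizer G v1).map (δ.prod ν) ⊓
        (⨆ v ∈ Y, ⨆ _ : v ≠ v1, (MulAction.stabilizer G v).map (δ.prod ν)) = ⊥

/-- [CZT cnt] (about 170 lines) THE COUNTING ARGUMENT.
Proof. `Q = F ⋊ Fˣ`, the group of the affine maps `x ↦ w x + u` (for example `SemidirectProduct (Multiplicative F) Fˣ` with the multiplication action, or the structure of pairs `(u, w)`), finite, `π : Q →* Fˣ`, `Nat.card π.ker = Nat.card F = q`.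
For `s r u : F` let `φ v1 g = (s * β g + r * (ν g : ℤ), 1)` and `φ v g = (u - θ g * u, θ g)` (the conjugate of `(0, θ g)` by the translation `u`) for `v ≠ v1`: homomorphisms `G →* Q`.  They agree (are `1`) on the stabilisers of edges of `Y`, so
`CC.exists_hom_ext` gives `f = f_(s, r, u)`; `π ∘ f = θ` (on the `G_v`, which generate: `CC.Fund.iSup_stab`), `f c = 1` (`c` fixes `v1`; `β c = 0`, `ν c = 1` as `c * c = 1`).  `(s, r, u) ↦ f` is injective: `f g2 = (s * β g2, 1)` with `β g2 ≠ 0`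
determines `s`, `f g1 = (s * β g1 + r, 1)` determines `r`, `f g3 = ((1 - θ g3) u, θ g3)`, `θ g3 ≠ 1`, determines `u`.  The set of all `f` is finite (`G` is finitely generated, `Q` finite), so
`q ^ 3 ≤ q ^ 2` by the hypothesis, but `q ≥ 2`. -/
def S_cnt : Prop :=
  ∀ (m : ℕ) (G V : Type) [Group G] [MulAction G V] (c : G) (δ : G →* Multiplicative (ZMod m))
    (ν : G →* Multiplicative ℤ), Cls m G c δ ν →
    (∀ (Q Q' : Type) [Group Q] [Finite Q] [Group Q'] (π : Q →* Q') (θ : G →* Q'),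
      Nat.card {f : G →* Q // π.comp f = θ ∧ f c = 1} ≤ Nat.card π.ker ^ 2) →
    ∀ (X : SimpleGraph V) (ty : V → Bool) (Y : Finset V), TreeAct G V X ty →
    Fund (Λ := G) X Y → (∀ v : V, c • v = v) → ∀ v1 ∈ Y,
    ∀ (F : Type) [Field F] [Finite F] (β : G →* Multiplicative F) (θ : G →* Fˣ),
    (∀ y ∈ Y, ∀ z ∈ Y, X.Adj y z → ∀ g : G, g • y = y → g • z = z →
      β g = 1 ∧ θ g = 1 ∧ ν g = 1) →
    β c = 1 → (∀ g : G, g • v1 = v1 → θ g = 1) → ∀ g1 g2 g3 : G,
    g1 • v1 = v1 → ν g1 = Multiplicative.ofAdd 1 → g2 • v1 = v1 → ν g2 = 1 → β g2 ≠ 1 →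
    ∀ v3 ∈ Y, v3 ≠ v1 → g3 • v3 = v3 → θ g3 ≠ 1 → False

/-- [CZT dec] (about 220 lines) Uses CZD.S_FU, split, cnt. THIRD CRITERION: edge stabilisers with trivial classes.
Proof. FU: `V', X', ty', j, Y` and `v1 ∈ Y` with `ν ≠ 1` on its stabiliser `G_{v1}` (edge stabilisers of `X'` are stabilisers of edges of `X`, `c` fixes the vertices of `X'`: `j` is injective and equivariant).  Let `H = C_m × ℤ`, `H1, H'` as in split: `H1 ⊔ H' = ⊤`, `H1 ⊓ H' = ⊥`.  (a) `H' ⊆ C_m × 1`: let `(d1, n1) ∈ H1`, `n1 ≠ 0`, and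
`(d', n') ∈ H'`; `(d', n') ^ (m n1) = (1, m n1 n') = (d1, n1) ^ (m n')` is in the intersection, so `n' = 0`.  So the second projection of `H1` is onto.  Let `A' = {d | (d, 1) ∈ H'}`, `A1 = {d | (d, 1) ∈ H1}`: `A1 ⊓ A' = ⊥`, `A1 ⊔ A' = ⊤` (write `(d, 1) = h1 h'`; then `h1.2 = 1`).
(b) `A' = ⊤`: `CC.exists_hom_ext` with `W = Coprod C_m ℤ`, `φ v1 = inr ∘ ν`, `φ v = inl ∘ δ` for `v ≠ v1` (trivial on edge stabilisers): `f`; its range contains `inr ℤ` (`ν` of `H1` is onto) and `inl A'` (generated by the `δ l`, `l ∈ G_v`, `v ≠ v1`), so `f` is onto.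
(c) `A' = ⊥`: the second alternative with `ι = {v // v ∈ Y}`, the stabilisers; `H1 = ⊤`.
(d) Otherwise `b = |A'| > 1` and `a = |A1| > 1`, `a b = m`, coprime (a cyclic group has at most one subgroup of order `q` for every prime `q`).  Let `q` be a prime dividing `a`, `F` a finite field of characteristic `q` with an element `ζ` of order `b` in `Fˣ`
(`GaloisField q (Nat.totient b)`: `q ^ (totient b) ≡ 1` modulo `b`, `Fˣ` is cyclic).  `θ : G →* Fˣ`: compose `cl`, the projection `H → H'` along `H1`, `A'` cyclic of order `b`, `A' ≃ zpowers ζ`: `θ = 1` on `G_{v1}`, and for `l ∈ G_v`, `v ≠ v1`: `θ l = 1` iff `δ l = 1`.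
`β : G →* Multiplicative F`: `δ`, then `ZMod m → ZMod q → F` (`q ∣ m`).  `β c = 1`.  There is `g1 ∈ G_{v1}` with `ν g1 = ofAdd 1`.  There is `g2 ∈ G_{v1}` with `ν g2 = 1`, `β g2 ≠ 1`: the map `C_m → ZMod q` is trivial on `A'` (`q ∤ b = |A'|`) and onto, so it is nontrivial
on `A1` (`A1 ⊔ A' = ⊤`).  There are `v3 ≠ v1` and `g3 ∈ G_{v3}` with `δ g3 ≠ 1` (`A' ≠ ⊥`), so `θ g3 ≠ 1`.  cnt: contradiction. -/
def S_dec : Prop :=
  ∀ (m : ℕ) (G V : Type) [Group G] [MulAction G V] (c : G) (δ : G →* Multiplicative (ZMod m))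
    (ν : G →* Multiplicative ℤ), Cls m G c δ ν →
    (∀ (Q Q' : Type) [Group Q] [Finite Q] [Group Q'] (π : Q →* Q') (θ : G →* Q'),
      Nat.card {f : G →* Q // π.comp f = θ ∧ f c = 1} ≤ Nat.card π.ker ^ 2) →
    ∀ (X : SimpleGraph V) (ty : V → Bool), TreeAct G V X ty → (∀ v : V, c • v = v) →
    (∀ u v, X.Adj u v → ∀ l : G, l • u = u → l • v = v → δ l = 1 ∧ ν l = 1) →
    (∃ (v : V) (l : G), l • v = v ∧ ν l ≠ 1) →
    OntoW m G ∨ ∃ (ι : Type) (H : ι → Subgroup G) (i0 : ι), (⨆ i, H i) = ⊤ ∧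
      (∀ i, ∀ l ∈ H i, ∃ v : V, l • v = v) ∧ (∀ i, i ≠ i0 → ∀ l ∈ H i, δ l = 1 ∧ ν l = 1) ∧
      ∀ x n, ∃ g ∈ H i0, δ g = x ∧ ν g = n

end Pool.Agent.CZT
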