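import Pool.Agent.Lib.MP_305fdd_al.CZ.T.Stm

/-!
# MP_305fdd_al (`C_m * Z`), section T, piece fp: an element with integral trace fixes a vertex
-/

set_option autoImplicit false

namespace Pool.Agent.CZT

open Pool.Agent.PSL2Z (TreeAct Gw)
open Pool.Agent.PSL2Z.BT (Vert mkV tree)
open Pool.Agent.CC (Fund)
open Pool.Agent.CZ (Core)
open Pool.Agent.CZD (GD OntoW WW)
open Pool.Agent.F2 (PC)
open Pool.Agent.F2Ch (IsV Gt)
open Pool.Agent.F2D (Acts Irr Disc EdgeElt)
open scoped WithZero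

private theorem fp_lt {x : ℤᵐ⁰} {n : ℤ} (h : x < WithZero.exp n) : x ≤ WithZero.exp (n - 1) := by
  by_cases hx : x = 0
  · rw [hx]
    exact zero_le'
  · obtain ⟨m, rfl⟩ : ∃ m : ℤ, x = WithZero.exp m :=
      ⟨WithZero.log x, (WithZero.exp_log hx).symm⟩
    rw [WithZero.exp_lt_exp] at h
    rw [WithZero.exp_le_exp]
    omega

private theorem fp_big (x : ℤᵐ⁰) : ∃ n : ℕ, x ≤ WithZero.exp (n : ℤ) := by
  by_cases hx : x = 0
  · exact ⟨0, by rw [hx]; exact zero_le'⟩
  · obtain ⟨m, rfl⟩ : ∃ m : ℤ, x = WithZero.exp m :=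
      ⟨WithZero.log x, (WithZero.exp_log hx).symm⟩
    exact ⟨m.toNat, by rw [WithZero.exp_le_exp]; omega⟩

private theorem fp_trace {E : Type} [Field E] {w : Valuation E ℤᵐ⁰} (k A : Gw w) :
    (k⁻¹ * A * k).val.val.trace = A.val.val.trace := by
  have h4 : (k⁻¹ * A * k).val.val = (k⁻¹).val.val * A.val.val * k.val.val := by
    rw [Subgroup.coe_mul, Subgroup.coe_mul, Units.val_mul, Units.val_mul]
  have h5 : k.val.val * (k⁻¹).val.val = 1 := by
    rw [← Units.val_mul, ← Subgroup.coe_mul, mul_inv_cancel]; rfl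
  rw [h4, Matrix.trace_mul_comm, ← mul_assoc, h5, one_mul]

private theorem fp_det {E : Type} [Field E] {w : Valuation E ℤᵐ⁰} (k A : Gw w)
    (hA : A.val.val.det = 1) : (k⁻¹ * A * k).val.val.det = 1 := by
  have h4 : (k⁻¹ * A * k).val.val = (k⁻¹).val.val * A.val.val * k.val.val := by
    rw [Subgroup.coe_mul, Subgroup.coe_mul, Units.val_mul, Units.val_mul]
  have h5 : (k⁻¹).val.val * k.val.val = 1 := by
    rw [← Units.val_mul, ← Subgroup.coe_mul, inv_mul_cancel]; rfl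
  rw [h4, Matrix.det_mul, Matrix.det_mul, hA, mul_one, ← Matrix.det_mul, h5, Matrix.det_one]

theorem p_fp (h0 : F2D.S_fx) (h1 : F2D.S_ma) : S_fp := by
  intro E _ w hw A hdet htr
  classical
  have hex : ∃ N : ℕ, ∃ (k : Gw w) (h : ℤ), F2D.Bd w (k⁻¹ * A * k) h (N : ℤ) := by
    obtain ⟨n1, h1'⟩ := fp_big (w (F2D.ent A 0 0))
    obtain ⟨n2, h2'⟩ := fp_big (w (F2D.ent A 0 1))
    obtain ⟨n3, h3'⟩ := fp_big (w (F2D.ent A 1 0))
    obtain ⟨n4, h4'⟩ := fp_big (w (F2D.ent A 1 1))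
    refine ⟨n1 + n2 + n3 + n4, 1, 0, ?_⟩
    have e : (1 : Gw w)⁻¹ * A * 1 = A := by rw [inv_one, one_mul, mul_one]
    rw [e]
    refine ⟨h1'.trans ?_, h2'.trans ?_, h3'.trans ?_, h4'.trans ?_⟩ <;>
    · rw [WithZero.exp_le_exp]
      push_cast
      omega
  obtain ⟨k, h, hB⟩ := Nat.find_spec hex
  have hmin : ∀ m : ℕ, m < Nat.find hex → ∀ (k : Gw w) (h : ℤ),
      ¬ F2D.Bd w (k⁻¹ * A * k) h (m : ℤ) :=
    fun m hm k h hb => Nat.find_min hex hm ⟨k, h, hb⟩
  generalize Nat.find hex = N at hB hmin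
  rcases Nat.eq_zero_or_pos N with hN | hpos
  · rw [hN, Nat.cast_zero] at hB
    have h3 := (h0 E w hw (k⁻¹ * A * k) h).2 hB
    refine ⟨k • mkV w h 0, ?_⟩
    have e : A • k • mkV w h 0 = k • ((k⁻¹ * A * k) • mkV w h 0) := by
      rw [smul_smul, smul_smul]
      congr 1
      group
    rw [e, h3]
  · exfalso
    have hN1 : (1 : ℤ) ≤ (N : ℤ) := by exact_mod_cast hpos
    obtain ⟨r, -, hBr, h10, h11⟩ := h1 E w hw (k⁻¹ * A * k) h N hN1 (fp_det k A hdet) hB
    have e : r⁻¹ * (k⁻¹ * A * k) * r = (k * r)⁻¹ * A * (k * r) := by group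
    rw [e] at hBr h10 h11
    have htr' := fp_trace (k * r) A
    have hdet' := fp_det (k * r) A hdet
    have hmin' := fun (m : ℕ) (hm : m < N) (h : ℤ) => hmin m hm (k * r) h
    generalize (k * r)⁻¹ * A * (k * r) = B at hBr h10 h11 htr' hdet' hmin'
    rw [Matrix.trace_fin_two] at htr'
    rw [Matrix.det_fin_two] at hdet'
    obtain ⟨b00, b01, b10, b11⟩ := hBr
    have hone : (1 : ℤᵐ⁰) < WithZero.exp (N : ℤ) := by
      rw [← WithZero.exp_zero, WithZero.exp_lt_exp]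
      omega
    have h00 : w (F2D.ent B 0 0) < WithZero.exp (N : ℤ) := by
      have e1 : F2D.ent B 0 0 = A.val.val.trace - F2D.ent B 1 1 := by
        rw [← htr']
        unfold F2D.ent
        ring
      rw [e1]
      exact lt_of_le_of_lt (w.map_sub _ _) (max_lt (lt_of_le_of_lt htr hone) h11)
    have hm1 : N - 1 < N := by omega
    have hc1 : ((N - 1 : ℕ) : ℤ) = (N : ℤ) - 1 := by
      rw [Nat.cast_sub hpos, Nat.cast_one]
    rcases lt_or_eq_of_le b01 with h01 | h01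
    · refine hmin' (N - 1) hm1 h ?_
      rw [hc1]
      refine ⟨fp_lt h00, ?_, ?_, fp_lt h11⟩
      · have := fp_lt h01
        rwa [show (N : ℤ) + h - 1 = N - 1 + h by ring] at this
      · have := fp_lt h10
        rwa [show (N : ℤ) - h - 1 = N - 1 - h by ring] at this
    · refine hmin' (N - 1) hm1 (h + 1) ?_
      rw [hc1]
      have hprod : w (F2D.ent B 0 1) * w (F2D.ent B 1 0) ≤ WithZero.exp (2 * (N : ℤ) - 2) := by
        rw [← map_mul]
        have e2 : F2D.ent B 0 1 * F2D.ent B 1 0 = F2D.ent B 0 0 * F2D.ent B 1 1 - 1 := by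
          unfold F2D.ent
          linear_combination -hdet'
        rw [e2]
        refine (w.map_sub _ _).trans (max_le ?_ ?_)
        · rw [map_mul, show 2 * (N : ℤ) - 2 = (N - 1) + (N - 1) by ring, WithZero.exp_add]
          exact mul_le_mul' (fp_lt h00) (fp_lt h11)
        · rw [map_one, ← WithZero.exp_zero, WithZero.exp_le_exp]
          omega
      refine ⟨fp_lt h00, ?_, ?_, fp_lt h11⟩
      · rw [h01, WithZero.exp_le_exp]
        omega
      · rw [h01] at hprod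
        have e3 : (2 * (N : ℤ) - 2) = ((N : ℤ) + h) + ((N : ℤ) - 1 - (h + 1)) := by ring
        rw [e3, WithZero.exp_add] at hprod
        exact le_of_mul_le_mul_left hprod (by simp)

end Pool.Agent.CZT
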