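import Pool.Agent.Lib.MP_305fdd_al.CZ.T.Stm

/-!
# MP_305fdd_al (`C_m * Z`), [CZT sub]: the barycentric subdivision with the stabilisers
-/

set_option autoImplicit false

namespace Pool.Agent.CZT

open Pool.Agent.PSL2Z (TreeAct Gw)
open Pool.Agent.PSL2Z.BT (Vert mkV tree)
open Pool.Agent.CC (Fund)
open Pool.Agent.CZ (Core)
open Pool.Agent.CZD (GD OntoW WW)
open Pool.Agent.F2 (PC)
open Pool.Agent.F2Ch (IsV Gt)
open Pool.Agent.F2D (Acts Irr Disc EdgeElt Cut)
open scoped WithZero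

section

variable {G V : Type} [Group G] [MulAction G V] (X : SimpleGraph V)

private theorem sub_mem (hX : Acts G X) (g : G) (e : Sym2 V) (he : e ∈ X.edgeSet) :
    e.map (fun v => g • v) ∈ X.edgeSet := by
  induction e using Sym2.ind with
  | _ a b =>
    rw [Sym2.map_mk]
    rw [SimpleGraph.mem_edgeSet] at he ⊢
    exact hX g a b he

/-- the action on the edges -/
private def subAct (hX : Acts G X) : MulAction G X.edgeSet where
  smul g e := ⟨e.1.map (fun v => g • v), sub_mem X hX g e.1 e.2⟩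
  one_smul e := by
    apply Subtype.ext
    change e.1.map (fun v => (1 : G) • v) = e.1
    simp
  mul_smul g h e := by
    apply Subtype.ext
    change e.1.map (fun v => (g * h) • v) = (e.1.map (fun v => h • v)).map (fun v => g • v)
    rw [Sym2.map_map]
    congr 1
    funext v
    exact mul_smul g h v

/-- the subdivided graph -/
private def subGr : SimpleGraph (V ⊕ X.edgeSet) where
  Adj a b := match a, b with
    | Sum.inl v, Sum.inr e => v ∈ e.1
    | Sum.inr e, Sum.inl v => v ∈ e.1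
    | _, _ => False
  symm := by
    constructor
    rintro (a | a) (b | b) h <;> exact h
  loopless := by
    constructor
    rintro (a | a) h <;> exact h

private theorem sub_reach {u v : V} (h : X.Reachable u v) :
    (subGr X).Reachable (Sum.inl u) (Sum.inl v) := by
  obtain ⟨p⟩ := h
  induction p with
  | nil => exact SimpleGraph.Reachable.refl _
  | @cons a b c hab _ ih =>
    refine SimpleGraph.Reachable.trans ?_ ih
    have h1 : (subGr X).Adj (Sum.inl a) (Sum.inr ⟨s(a, b), hab⟩) := Sym2.mem_mk_left a b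
    have h2 : (subGr X).Adj (Sum.inr ⟨s(a, b), hab⟩) (Sum.inl b) := Sym2.mem_mk_right a b
    exact h1.reachable.trans h2.reachable

private theorem sub_conn (hc : X.Connected) : (subGr X).Connected := by
  haveI := hc.nonempty
  have h0 : ∀ a : V ⊕ X.edgeSet, ∃ u : V, (subGr X).Reachable a (Sum.inl u) := by
    rintro (a | ⟨e, he⟩)
    · exact ⟨a, SimpleGraph.Reachable.refl _⟩
    · induction e using Sym2.ind with
      | _ a b =>
        have h2 : (subGr X).Adj (Sum.inr ⟨s(a, b), he⟩) (Sum.inl a) := Sym2.mem_mk_left a b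
        exact ⟨a, h2.reachable⟩
  haveI : Nonempty (V ⊕ X.edgeSet) := ⟨Sum.inl (Classical.arbitrary V)⟩
  refine SimpleGraph.Connected.mk ?_
  intro a b
  obtain ⟨u, hu⟩ := h0 a
  obtain ⟨v, hv⟩ := h0 b
  exact (hu.trans (sub_reach X (hc.preconnected u v))).trans hv.symm

private theorem sub_cut (h1 : F2D.S_t2) (hX : X.IsTree) (u : V) (e : X.edgeSet)
    (hu : u ∈ e.1) : ∃ S, Cut (subGr X) S (Sum.inl u) (Sum.inr e) := by
  obtain ⟨v, hv⟩ : ∃ v, e.1 = s(u, v) := hu
  have huv : X.Adj u v := by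
    have := e.2
    rw [hv, SimpleGraph.mem_edgeSet] at this
    exact this
  obtain ⟨S, hS1, hS2, hS3⟩ := h1 V X hX u v huv
  refine ⟨{w | match w with
    | Sum.inl x => x ∈ S
    | Sum.inr f => ∃ x ∈ f.1, x ∈ S}, hS1, ⟨v, ?_, hS2⟩, ?_⟩
  · rw [hv]
    exact Sym2.mem_mk_right u v
  · rintro (a | a) (b | b) hab ha hb
    · exact hab.elim
    · obtain ⟨y, hy, hyS⟩ := hb
      have haS : a ∉ S := ha
      have hab' : a ∈ b.1 := hab
      have hay : a ≠ y := fun h => haS (h ▸ hyS)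
      have hb1 : b.1 = s(a, y) := (Sym2.mem_and_mem_iff hay).1 ⟨hab', hy⟩
      have hadj : X.Adj a y := by
        have := b.2
        rw [hb1, SimpleGraph.mem_edgeSet] at this
        exact this
      obtain ⟨rfl, rfl⟩ := hS3 a y hadj haS hyS
      refine ⟨rfl, ?_⟩
      congr 1
      apply Subtype.ext
      rw [hb1, hv]
    · have hab' : b ∈ a.1 := hab
      exact (ha ⟨b, hab', hb⟩).elim
    · exact hab.elim

private theorem sub_tree (h0 : F2D.S_t1) (h1 : F2D.S_t2) (hX : X.IsTree) :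
    (subGr X).IsTree := by
  apply h0 _ _ (sub_conn X hX.connected)
  rintro (a | a) (b | b) hab
  · exact hab.elim
  · exact sub_cut X h1 hX a b hab
  · obtain ⟨S, hS1, hS2, hS3⟩ := sub_cut X h1 hX b a hab
    refine ⟨Sᶜ, fun h => h hS2, hS1, ?_⟩
    intro x y hxy hx hy
    have hx' : x ∈ S := not_not.1 hx
    obtain ⟨h2, h3⟩ := hS3 y x hxy.symm hy hx'
    exact ⟨h3, h2⟩
  · exact hab.elim

end

/-- [CZT sub] -/
theorem p_sub (h0 : F2D.S_t1) (h1 : F2D.S_t2) : S_sub := by
  intro G V _ _ X hX hact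
  letI := subAct X hact
  have hmap : ∀ (g : G) (u v : V) (h : s(u, v) ∈ X.edgeSet),
      g • (⟨s(u, v), h⟩ : X.edgeSet) = ⟨s(g • u, g • v), hact g u v h⟩ := fun _ _ _ _ => rfl
  have hinl : ∀ (g : G) (v : V), g • (Sum.inl v : V ⊕ X.edgeSet) = Sum.inl (g • v) :=
    fun _ _ => rfl
  have hinr : ∀ (g : G) (e : X.edgeSet), g • (Sum.inr e : V ⊕ X.edgeSet) = Sum.inr (g • e) :=
    fun _ _ => rfl
  have hv1 : ∀ (g : G) (v : V), g • (Sum.inl v : V ⊕ X.edgeSet) = Sum.inl v ↔ g • v = v := by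
    intro g v
    rw [hinl]
    exact ⟨fun h => Sum.inl.inj h, fun h => by rw [h]⟩
  have he1 : ∀ (g : G) (u v : V) (h : s(u, v) ∈ X.edgeSet),
      g • (Sum.inr ⟨s(u, v), h⟩ : V ⊕ X.edgeSet) = Sum.inr ⟨s(u, v), h⟩ ↔
      (g • u = u ∧ g • v = v) ∨ (g • u = v ∧ g • v = u) := by
    intro g u v h
    rw [hinr, hmap, Sum.inr.injEq, Subtype.mk.injEq, Sym2.eq_iff]
  have hedge : ∀ (u : V) (e : X.edgeSet), u ∈ e.1 → ∃ v : V, X.Adj u v ∧
      ∀ g : G, (g • (Sum.inl u : V ⊕ X.edgeSet) = Sum.inl u ∧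
        g • (Sum.inr e : V ⊕ X.edgeSet) = Sum.inr e) ↔ (g • u = u ∧ g • v = v) := by
    rintro u ⟨e, he⟩ ⟨v, hv⟩
    change e = s(u, v) at hv
    subst hv
    have huv : X.Adj u v := he
    refine ⟨v, huv, fun g => ?_⟩
    rw [hv1, he1]
    constructor
    · rintro ⟨h2, h3 | h3⟩
      · exact h3
      · exact (huv.ne (h2.symm.trans h3.1)).elim
    · intro h2
      exact ⟨h2.1, Or.inl h2⟩
  refine ⟨V ⊕ X.edgeSet, inferInstance, subGr X, fun a => a.isLeft, ⟨sub_tree X h0 h1 hX, ?_,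
    ?_, ?_⟩, ?_, ?_, ?_⟩
  · rintro g (a | a) (b | b) hab
    · exact hab.elim
    · have hab' : a ∈ b.1 := hab
      change g • a ∈ b.1.map (fun v => g • v)
      exact Sym2.mem_map.2 ⟨a, hab', rfl⟩
    · have hab' : b ∈ a.1 := hab
      change g • b ∈ a.1.map (fun v => g • v)
      exact Sym2.mem_map.2 ⟨b, hab', rfl⟩
    · exact hab.elim
  · rintro g (a | a) <;> rfl
  · rintro (a | a) (b | b) hab
    · exact hab.elim
    · simp
    · simp
    · exact hab.elim
  · rintro (a | ⟨e, he⟩)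
    · exact Or.inl ⟨a, fun g => hv1 g a⟩
    · right
      induction e using Sym2.ind with
      | _ u v => exact ⟨u, v, he, fun g => he1 g u v he⟩
  · intro v
    exact ⟨Sum.inl v, fun g => hv1 g v⟩
  · rintro (a | a) (b | b) hab
    · exact hab.elim
    · obtain ⟨v, h2, h3⟩ := hedge a b hab
      exact ⟨a, v, h2, h3⟩
    · obtain ⟨v, h2, h3⟩ := hedge b a hab
      exact ⟨b, v, h2, fun g => by rw [and_comm]; exact h3 g⟩
    · exact hab.elim

end Pool.Agent.CZT
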