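import Pool.Agent.Lib.MP_305fdd_al.CZ.T.Stm
import Pool.Agent.Lib.MP_305fdd_al.F2.D.p_A2

set_option autoImplicit false

namespace Pool.Agent.CZT

open Pool.Agent.PSL2Z (TreeAct Gw)
open Pool.Agent.PSL2Z.BT
open Pool.Agent.CC (Fund)
open Pool.Agent.CZ (Core)
open Pool.Agent.CZD (GD OntoW WW)
open Pool.Agent.F2 (PC)
open Pool.Agent.F2Ch (IsV Gt)
open Pool.Agent.F2D (Acts Irr Disc EdgeElt Cross ent A2_pow A2_trace A2_det)
open scoped WithZero

/-- the square of a trace -/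
theorem tt_sq {G K Γ : Type} [Group G] [Field K] [AddCommGroup Γ] [LinearOrder Γ]
    [IsOrderedAddMonoid Γ] (T : G → K) (v : K → Γ) (hPC : PC T) (hv : IsV v) (l : G)
    (h : 0 ≤ v (T (l * l))) : 0 ≤ v (T l) := by
  by_contra hcon
  push Not at hcon
  have hTl : T l ≠ 0 := by
    intro h0
    rw [h0, hv.zero] at hcon
    exact lt_irrefl _ hcon
  have h1 : v (T l * T l) = v (T l) + v (T l) := hv.mul _ _ hTl hTl
  have h2 : v (T l * T l) < 0 := by rw [h1]; exact add_neg hcon hcon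
  have h3 : T l * T l = T (l * l) + 2 := by
    rw [← hPC.rel l l, mul_inv_cancel, hPC.one]
  have hv1 : v 1 = 0 := by
    have := hv.mul 1 1 one_ne_zero one_ne_zero
    rw [mul_one] at this
    exact left_eq_add.mp this
  have hv2 : (2 : K) ≠ 0 → 0 ≤ v 2 := by
    intro h20
    have h4 : (1 : K) + 1 ≠ 0 := by rw [one_add_one_eq_two]; exact h20
    have := hv.add 1 1 one_ne_zero one_ne_zero h4
    rwa [hv1, min_self, one_add_one_eq_two] at this
  by_cases h20 : (2 : K) = 0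
  · rw [h3, h20, add_zero] at h2
    exact not_le.mpr h2 h
  · by_cases h4 : T (l * l) = 0
    · rw [h3, h4, zero_add] at h2
      exact not_le.mpr h2 (hv2 h20)
    · have h5 := hv.add (T (l * l)) 2 h4 h20 (by rw [← h3]; exact mul_ne_zero hTl hTl)
      rw [← h3] at h5
      exact not_le.mpr h2 ((le_min h (hv2 h20)).trans h5)

/-- `-1` fixes all vertices -/
theorem tt_neg {E : Type} [Field E] {w : Valuation E ℤᵐ⁰} (A : Gw w)
    (hA : A.val.val + 1 = 0) (M : Vert w) : A • M = M := by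
  have h1 : A.val.val = -1 := eq_neg_of_add_eq_zero_left hA
  have h2 : (A⁻¹).val.val = -1 := by
    have h5 : (A⁻¹).val.val * A.val.val = 1 := by
      rw [← Units.val_mul, ← Subgroup.coe_mul, inv_mul_cancel]; rfl
    rw [h1, mul_neg, mul_one] at h5
    rw [← h5, neg_neg]
  apply Subtype.ext
  ext v
  rw [mem_smul, h2, Matrix.neg_mulVec, Matrix.one_mulVec, eq_Bl M]
  unfold Bl
  rw [mem_S, mem_S]
  have e1 : (-v) 0 - pos M * (-v) 1 = -(v 0 - pos M * v 1) := by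
    simp only [Pi.neg_apply]; ring
  rw [e1, Valuation.map_neg, Pi.neg_apply, Valuation.map_neg]

theorem p_tt (h0 : S_fp) (h1 : S_sub) (hco : F2D.S_co) (hmi : F2D.S_mi) (hle : F2D.S_le)
    (hse : F2D.S_se) (hmo : F2D.S_mo) : S_tt := by
  intro Λ K Γ _ _ _ _ _ T v hPC hIrr hv hdisc hneg
  obtain ⟨E, _, _, w, γ, ρ, hM⟩ := hse Λ K Γ T v hPC hIrr hv hdisc hneg
  have hw := hM.surj
  obtain ⟨ho1, ho2, ho3, ho4⟩ := hmo Λ K Γ E T v γ w ρ hv hM
  let _ : MulAction Λ (Vert w) := MulAction.compHom (Vert w) ρ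
  have hsm : ∀ (l : Λ) (M : Vert w), l • M = ρ l • M := fun _ _ => rfl
  have hacts : Acts Λ (tree w) := fun g u v' huv => adj_smul hw (ρ g) u v' huv
  obtain ⟨Good, hGood⟩ : ∃ Good : Vert w → Vert w → Prop, ∀ M N, Good M N ↔
      ∃ (k : Gw w) (h n : ℤ) (g : Λ), 1 ≤ n ∧ Cross w (k⁻¹ * ρ g * k) h n ∧
        ((M = k • mkV w h 0 ∧ N = k • mkV w (h + 1) 0) ∨
          (N = k • mkV w h 0 ∧ M = k • mkV w (h + 1) 0)) := ⟨_, fun _ _ => Iff.rfl⟩
  have hGs : ∀ M N, Good M N → Good N M := by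
    intro M N h
    rw [hGood] at h ⊢
    obtain ⟨k, h', n, g, h1, h2, h3⟩ := h
    exact ⟨k, h', n, g, h1, h2, h3.symm⟩
  have hGi : ∀ (l : Λ) (M N : Vert w), Good M N → Good (ρ l • M) (ρ l • N) := by
    intro l M N h
    rw [hGood] at h ⊢
    obtain ⟨k, h', n, g, h1, h2, h3⟩ := h
    refine ⟨ρ l * k, h', n, l * g * l⁻¹, h1, ?_, ?_⟩
    · have e : (ρ l * k)⁻¹ * ρ (l * g * l⁻¹) * (ρ l * k) = k⁻¹ * ρ g * k := by
        rw [map_mul, map_mul, map_inv]
        group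
      rw [e]; exact h2
    · rcases h3 with ⟨h3, h4⟩ | ⟨h3, h4⟩
      · left
        rw [mul_smul, mul_smul, ← h3, ← h4]
        exact ⟨rfl, rfl⟩
      · right
        rw [mul_smul, mul_smul, ← h3, ← h4]
        exact ⟨rfl, rfl⟩
  obtain ⟨D, hD⟩ : ∃ D : Vert w → Vert w → Prop, ∀ M N, D M N ↔ ((tree w).Adj M N ∧ ¬ Good M N) :=
    ⟨_, fun _ _ => Iff.rfl⟩
  have hD1 : ∀ M N, D M N → (tree w).Adj M N := fun M N h => ((hD M N).mp h).1
  have hD2 : ∀ M N, D M N → D N M := by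
    intro M N h
    rw [hD] at h ⊢
    exact ⟨h.1.symm, fun h' => h.2 (hGs _ _ h')⟩
  have hD3 : ∀ (l : Λ) (M N : Vert w), D M N → D (ρ l • M) (ρ l • N) := by
    intro l M N h
    rw [hD] at h ⊢
    refine ⟨adj_smul hw (ρ l) M N h.1, fun h' => h.2 ?_⟩
    have h4 := hGi l⁻¹ _ _ h'
    rwa [map_inv, inv_smul_smul, inv_smul_smul] at h4
  obtain ⟨W, _, Z, q, hZ, hZa, hqs, hqe, hqr, hZe⟩ :=
    hco Λ (Vert w) (tree w) (isTree hw) hacts D hD1 hD2 hD3
  -- vertex stabilisers of Z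
  have hval : ∀ (a : W) (l : Λ), l • a = a → 0 ≤ v (T l) := by
    intro a l hla
    by_contra hcon
    obtain ⟨M0, rfl⟩ := hqs a
    have h1 : ¬ w (algebraMap K E (T l)) ≤ 1 := fun h => hcon ((ho1 _).mpr h)
    have h1' := not_le.mp h1
    have hne : w (algebraMap K E (T l)) ≠ 0 := (zero_lt_one.trans h1').ne'
    obtain ⟨n, hn⟩ : ∃ n : ℤ, w (algebraMap K E (T l)) = WithZero.exp n :=
      ⟨_, (WithZero.exp_log hne).symm⟩
    have hn1 : 1 ≤ n := by
      rw [hn, ← WithZero.exp_zero, WithZero.exp_lt_exp] at h1'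
      omega
    have hRT : Relation.ReflTransGen D M0 (ρ l • M0) := by
      rw [← hqr]
      change q M0 = q (l • M0)
      rw [hqe, hla]
    obtain ⟨k, h, h2, h3⟩ := hmi E w hw (ρ l) n (hM.det l) hn1 (by rw [hM.tr l, hn]) D hD1 hD2
      (hD3 l) M0 hRT
    rw [hD] at h2
    exact h2.2 ((hGood _ _).mpr ⟨k, h, n, l, hn1, h3, Or.inl ⟨rfl, rfl⟩⟩)
  -- (a)
  have hfixa : ∀ l : Λ, 0 ≤ v (T l) → ∃ a : W, l • a = a := by
    intro l hl
    obtain ⟨M, hMl⟩ := h0 E w hw (ρ l) (hM.det l) (by rw [hM.tr l]; exact (ho1 _).mp hl)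
    refine ⟨q M, ?_⟩
    rw [← hqe, hsm, hMl]
  -- (b)
  have hcen : ∀ c : Λ, (∀ h, T (c * h) = - T h) → ∀ a : W, c • a = a := by
    intro c hc a
    obtain ⟨M, rfl⟩ := hqs a
    have h2 : (ρ c).val.val + 1 = 0 := by
      apply hM.span
      intro l
      have h3 : (ρ c).val.val * (ρ l).val.val = (ρ (c * l)).val.val := by
        rw [map_mul, Subgroup.coe_mul, Units.val_mul]
      rw [add_mul, one_mul, Matrix.trace_add, h3, hM.tr, hM.tr, hc, map_neg, neg_add_cancel]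
    rw [← hqe, hsm, tt_neg (ρ c) h2]
  -- (c)
  have hedge : ∀ a b, Z.Adj a b → ∃ g : Λ, ∀ l : Λ, l • a = a → l • b = b →
      ∃ ψ : K, EdgeElt v T l g ψ := by
    intro a b hab
    obtain ⟨u, u', huu, hnD, -, -, hfix⟩ := hZe a b hab
    have hgood : Good u u' := by
      by_contra hcon
      exact hnD ((hD _ _).mpr ⟨huu, hcon⟩)
    rw [hGood] at hgood
    obtain ⟨k, h, n, g, hn1, hcross, hor⟩ := hgood
    refine ⟨g, fun z hza hzb => ?_⟩
    obtain ⟨hzu, hzu'⟩ := hfix z hza hzb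
    have hfix2 : ρ z • k • mkV w h 0 = k • mkV w h 0 ∧
        ρ z • k • mkV w (h + 1) 0 = k • mkV w (h + 1) 0 := by
      rcases hor with ⟨h3, h4⟩ | ⟨h3, h4⟩
      · rw [← h3, ← h4]; exact ⟨hzu, hzu'⟩
      · rw [← h3, ← h4]; exact ⟨hzu', hzu⟩
    obtain ⟨hl1, hl2, -, hl4⟩ := hle E w hw (k⁻¹ * ρ g * k) (k⁻¹ * ρ z * k) h n hcross
      (by rw [mul_smul, mul_smul, hfix2.1, inv_smul_smul])
      (by rw [mul_smul, mul_smul, hfix2.2, inv_smul_smul]) (A2_det k _ (hM.det z))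
    obtain ⟨c, hc⟩ : ∃ c : E, c = ent (k⁻¹ * ρ z * k) 0 0 := ⟨_, rfl⟩
    rw [← hc] at hl1 hl4
    rw [A2_trace, hM.tr] at hl2 hl4
    have hl5 : ∀ m : ℤ, w (algebraMap K E (T (g * z ^ m)) - c ^ m * algebraMap K E (T g)) <
        WithZero.exp n := by
      intro m
      have e : k⁻¹ * ρ g * k * (k⁻¹ * ρ z * k) ^ m = k⁻¹ * ρ (g * z ^ m) * k := by
        have e2 : (k⁻¹ * ρ z * k) ^ m = k⁻¹ * ρ z ^ m * k := by
          have := conj_zpow (i := m) (a := k⁻¹) (b := ρ z)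
          rwa [inv_inv] at this
        rw [e2, map_mul, map_zpow]
        group
      have h6 := hl4 m
      rw [e, A2_trace, hM.tr] at h6
      exact h6
    obtain ⟨ψ, hψ⟩ := hM.dense c 0
    rw [WithZero.exp_zero] at hψ
    have hwψ : w (algebraMap K E ψ) = 1 := by
      have e : algebraMap K E ψ = c - (c - algebraMap K E ψ) := by ring
      rw [e, Valuation.map_sub_eq_of_lt_left w (by rw [hl1]; exact hψ), hl1]
    have hψ0 : ψ ≠ 0 := by
      rintro rfl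
      rw [map_zero, map_zero] at hwψ
      exact zero_ne_one hwψ
    have hTg : T g ≠ 0 := by
      intro h0
      rw [h0, map_zero, map_zero] at hl2
      exact WithZero.exp_ne_zero hl2.symm
    refine ⟨ψ, hψ0, (ho3 ψ hψ0).mpr hwψ, ?_, ?_⟩
    · by_contra hcon
      have h1 := (ho1 _).mp (not_lt.mp hcon)
      rw [hl2, ← WithZero.exp_zero, WithZero.exp_le_exp] at h1
      omega
    · intro m
      rw [ho2 _ _ hTg, hl2, map_sub, map_mul, map_zpow₀]
      have e : algebraMap K E (T (g * z ^ m)) - algebraMap K E ψ ^ m * algebraMap K E (T g) =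
          (algebraMap K E (T (g * z ^ m)) - c ^ m * algebraMap K E (T g)) +
          (c ^ m - algebraMap K E ψ ^ m) * algebraMap K E (T g) := by ring
      rw [e]
      refine Valuation.map_add_lt w (hl5 m) ?_
      rw [map_mul, hl2]
      have h7 := A2_pow w c (algebraMap K E ψ) hl1 hwψ hψ m
      calc w (c ^ m - algebraMap K E ψ ^ m) * WithZero.exp n < 1 * WithZero.exp n :=
            mul_lt_mul_of_pos_right h7 WithZero.exp_pos
        _ = WithZero.exp n := one_mul _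
  -- (d)
  obtain ⟨V', _, X', ty, hTA, hv1, hv2, he⟩ := h1 Λ W Z hZ hZa
  refine ⟨V', _, X', ty, hTA, ?_, ?_, ?_⟩
  · intro l
    constructor
    · rintro ⟨a, ha⟩
      rcases hv1 a with ⟨b, hb⟩ | ⟨u, u', -, hu⟩
      · exact hval b l ((hb l).mp ha)
      · rcases (hu l).mp ha with ⟨h2, -⟩ | ⟨h2, h3⟩
        · exact hval u l h2
        · exact tt_sq T v hPC hv l (hval u (l * l) (by rw [mul_smul, h2, h3]))
    · intro hl
      obtain ⟨a, ha⟩ := hfixa l hl
      obtain ⟨b, hb⟩ := hv2 a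
      exact ⟨b, (hb l).mpr ha⟩
  · intro a b hab
    obtain ⟨u, u', huu, hu⟩ := he a b hab
    obtain ⟨g, hg⟩ := hedge u u' huu
    refine ⟨g, fun l h2 h3 => ?_⟩
    obtain ⟨h4, h5⟩ := (hu l).mp ⟨h2, h3⟩
    exact hg l h4 h5
  · intro c hc a
    rcases hv1 a with ⟨b, hb⟩ | ⟨u, u', -, hu⟩
    · exact (hb c).mpr (hcen c hc b)
    · exact (hu c).mpr (Or.inl ⟨hcen c hc u, hcen c hc u'⟩)

end Pool.Agent.CZT
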